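import Pool.Agent.HP778.Main

/-!
# Relations `p i * l i + v i * 1 + u i = q i * λ i` in a space with the hyperplane property

`Pool.Agent.HP778.Core.core` with an additional term: a multiple of `1`, which is in `V`.
-/

set_option autoImplicit false

namespace Pool.Agent.K3h86.PT

open Module Finset Polynomial
open Pool.Agent.HP778

variable {k Ω : Type} [Field k] [Field Ω] [Algebra k Ω]

/-- coordinate functionals which vanish at `1` -/
theorem exists_coord1 {m : ℕ} {l : Fin m → Ω}
    (hl : LinearIndependent k (fun i : Fin (m + 1) => (finSuccEquiv m i).elim (1 : Ω) l))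
    (h : Fin m) :
    ∃ ψ : Ω →ₗ[k] k, (∀ i, ψ (l i) = if i = h then 1 else 0) ∧ ψ 1 = 0 := by
  obtain ⟨ψ, hψ⟩ := exists_coord hl h.succ
  refine ⟨ψ, fun i => ?_, ?_⟩
  · have h1 := hψ i.succ
    simpa using h1
  · have h1 := hψ 0
    have h2 : ¬ ((0 : Fin (m + 1)) = h.succ) := (Fin.succ_ne_zero h).symm
    rw [if_neg h2] at h1
    simpa using h1

/-- **Core with an additional term.** -/
theorem core1 {V : Submodule k Ω} (hV : Hyper V) (h1V : (1 : Ω) ∈ V) {m : ℕ}
    (l lam p q u v : Fin m → Ω)
    (hl : LinearIndependent k (fun i : Fin (m + 1) => (finSuccEquiv m i).elim (1 : Ω) l))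
    (hlV : ∀ i, l i ∈ V) (hlam : ∀ i, lam i ∈ V)
    (hrel : ∀ i, p i * l i + v i + u i = q i * lam i)
    (B C W : Submodule k Ω) [FiniteDimensional k B] [FiniteDimensional k C]
    [FiniteDimensional k W] (hp : ∀ b ∈ B, ∀ i, b * p i ∈ C) (hq : ∀ b ∈ B, ∀ i, b * q i ∈ C)
    (hv : ∀ b ∈ B, ∀ i, b * v i ∈ C)
    (hW : ∀ b ∈ B, ∀ i, b * u i ∈ W) (s : ℕ)
    (hs : ∀ c : Fin m → Fin m → k, finrank k (Deg B p q c) ≤ s) :
    m * finrank k B ≤ finrank k W + s + finrank k C * (finrank k C - 1) := by
  classical
  let φ : (Fin m → B) →ₗ[k] W := {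
    toFun := fun b => ⟨∑ i, ((b i : B) : Ω) * u i, Submodule.sum_mem _ fun i _ => hW _ (b i).2 i⟩
    map_add' := by
      intro b b'
      apply Subtype.ext
      simp only [Pi.add_apply, Submodule.coe_add, add_mul, Finset.sum_add_distrib]
    map_smul' := by
      intro a b
      apply Subtype.ext
      simp only [Pi.smul_apply, Submodule.coe_smul, smul_mul_assoc, RingHom.id_apply]
      rw [Finset.smul_sum] }
  set E := LinearMap.ker φ with hE
  have hdim : m * finrank k B ≤ finrank k W + finrank k E := by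
    have h1 := LinearMap.finrank_range_add_finrank_ker φ
    have h2 : finrank k (LinearMap.range φ) ≤ finrank k W := Submodule.finrank_le _
    rw [Module.finrank_pi_fintype, Finset.sum_const, Finset.card_univ, Fintype.card_fin,
      smul_eq_mul, ← hE] at h1
    omega
  let bC := Module.finBasis k C
  let x : Fin (finrank k C) → Ω := fun v => ((bC v : C) : Ω)
  have hx : LinearIndependent k x := bC.linearIndependent.map' C.subtype C.ker_subtype
  -- coordinates of the products
  let γp : Fin m → B →ₗ[k] C := fun i => {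
    toFun := fun b => ⟨(b : Ω) * p i, hp _ b.2 i⟩
    map_add' := by intro b b'; apply Subtype.ext; simp only [Submodule.coe_add, add_mul]
    map_smul' := by
      intro a b; apply Subtype.ext
      simp only [Submodule.coe_smul, smul_mul_assoc, RingHom.id_apply] }
  let γq : Fin m → B →ₗ[k] C := fun i => {
    toFun := fun b => ⟨(b : Ω) * q i, hq _ b.2 i⟩
    map_add' := by intro b b'; apply Subtype.ext; simp only [Submodule.coe_add, add_mul]
    map_smul' := by
      intro a b; apply Subtype.ext
      simp only [Submodule.coe_smul, smul_mul_assoc, RingHom.id_apply] }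
  let γv : Fin m → B →ₗ[k] C := fun i => {
    toFun := fun b => ⟨(b : Ω) * v i, hv _ b.2 i⟩
    map_add' := by intro b b'; apply Subtype.ext; simp only [Submodule.coe_add, add_mul]
    map_smul' := by
      intro a b; apply Subtype.ext
      simp only [Submodule.coe_smul, smul_mul_assoc, RingHom.id_apply] }
  have hγp : ∀ i (b : B), ∑ v, bC.repr (γp i b) v • x v = (b : Ω) * p i := by
    intro i b
    have h := congrArg (fun z : C => (z : Ω)) (bC.sum_repr (γp i b))
    simp only [Submodule.coe_sum, Submodule.coe_smul] at h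
    exact h
  have hγq : ∀ i (b : B), ∑ v, bC.repr (γq i b) v • x v = (b : Ω) * q i := by
    intro i b
    have h := congrArg (fun z : C => (z : Ω)) (bC.sum_repr (γq i b))
    simp only [Submodule.coe_sum, Submodule.coe_smul] at h
    exact h
  have hγv : ∀ i (b : B), ∑ w, bC.repr (γv i b) w • x w = (b : Ω) * v i := by
    intro i b
    have h := congrArg (fun z : C => (z : Ω)) (bC.sum_repr (γv i b))
    simp only [Submodule.coe_sum, Submodule.coe_smul] at h
    exact h
  let Φ : (Fin m → B) →ₗ[k] (Fin (finrank k C) → Ω) := {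
    toFun := fun b w => ∑ i, (bC.repr (γp i (b i)) w • l i + bC.repr (γv i (b i)) w • (1 : Ω)
      - bC.repr (γq i (b i)) w • lam i)
    map_add' := by
      intro b b'
      funext w
      simp only [Pi.add_apply, map_add, Finsupp.add_apply, add_smul]
      rw [← Finset.sum_add_distrib]
      refine Finset.sum_congr rfl fun i _ => ?_
      ring
    map_smul' := by
      intro a b
      funext w
      simp only [Pi.smul_apply, map_smul, Finsupp.smul_apply, smul_eq_mul, RingHom.id_apply]
      rw [Finset.smul_sum]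
      refine Finset.sum_congr rfl fun i _ => ?_
      rw [smul_sub, smul_add, mul_smul, mul_smul, mul_smul] }
  let ΦE : E →ₗ[k] (Fin (finrank k C) → Ω) := Φ.comp E.subtype
  have hrange : finrank k (LinearMap.range ΦE) ≤ finrank k C * (finrank k C - 1) := by
    apply hV.finrank_le x hx
    rintro _ ⟨b, rfl⟩
    refine ⟨fun w => ?_, ?_⟩
    · change ∑ i, (bC.repr (γp i ((b : Fin m → B) i)) w • l i +
          bC.repr (γv i ((b : Fin m → B) i)) w • (1 : Ω) -
          bC.repr (γq i ((b : Fin m → B) i)) w • lam i) ∈ V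
      refine Submodule.sum_mem _ fun i _ => Submodule.sub_mem _ (Submodule.add_mem _ ?_ ?_) ?_
      · exact Submodule.smul_mem _ _ (hlV i)
      · exact Submodule.smul_mem _ _ h1V
      · exact Submodule.smul_mem _ _ (hlam i)
    · have h0 : φ b = 0 := LinearMap.mem_ker.mp b.2
      have h1 : ∑ i, (((b : Fin m → B) i : B) : Ω) * u i = 0 :=
        congrArg (fun z : W => (z : Ω)) h0
      have e1 : ∑ w, x w * ΦE b w = ∑ i,
          ((∑ w, bC.repr (γp i ((b : Fin m → B) i)) w • x w) * l i +
            (∑ w, bC.repr (γv i ((b : Fin m → B) i)) w • x w) -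
            (∑ w, bC.repr (γq i ((b : Fin m → B) i)) w • x w) * lam i) := by
        change ∑ w, x w * ∑ i, (bC.repr (γp i ((b : Fin m → B) i)) w • l i +
          bC.repr (γv i ((b : Fin m → B) i)) w • (1 : Ω) -
          bC.repr (γq i ((b : Fin m → B) i)) w • lam i) = _
        simp only [Finset.mul_sum, Finset.sum_mul]
        rw [Finset.sum_comm]
        refine Finset.sum_congr rfl fun i _ => ?_
        rw [← Finset.sum_add_distrib, ← Finset.sum_sub_distrib]
        refine Finset.sum_congr rfl fun w _ => ?_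
        simp only [Algebra.smul_def]
        ring
      rw [e1, ← neg_eq_zero, ← h1, ← Finset.sum_neg_distrib]
      refine Finset.sum_congr rfl fun i _ => ?_
      rw [hγp, hγq, hγv]
      linear_combination (-(((b : Fin m → B) i : B) : Ω)) * hrel i
  choose ψ hψ hψ1 using fun h : Fin m => exists_coord1 hl h
  have hker : finrank k (LinearMap.ker ΦE) ≤ s := by
    refine le_trans ?_ (hs (fun h i => ψ h (lam i)))
    have h1 : (LinearMap.ker ΦE).map E.subtype ≤ Deg B p q (fun h i => ψ h (lam i)) := by
      rintro _ ⟨b, hb, rfl⟩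
      rw [mem_Deg]
      intro h
      have h2 : ∀ w, bC.repr (γp h ((b : Fin m → B) h)) w =
          ∑ i, bC.repr (γq i ((b : Fin m → B) i)) w * ψ h (lam i) := by
        intro w
        have h3 : ΦE b = 0 := LinearMap.mem_ker.mp hb
        have h4 : ∑ i, (bC.repr (γp i ((b : Fin m → B) i)) w • l i +
          bC.repr (γv i ((b : Fin m → B) i)) w • (1 : Ω) -
          bC.repr (γq i ((b : Fin m → B) i)) w • lam i) = 0 := congrFun h3 w
        have h5 := congrArg (ψ h) h4
        rw [map_zero, map_sum] at h5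
        simp only [map_sub, map_add, map_smul, smul_eq_mul, hψ1, mul_zero, add_zero,
          Finset.sum_sub_distrib] at h5
        rw [Finset.sum_eq_single h] at h5
        · rw [hψ h h, if_pos rfl, mul_one] at h5
          exact sub_eq_zero.mp h5
        · intro i _ hi
          rw [hψ h i, if_neg hi, mul_zero]
        · intro hh; exact absurd (Finset.mem_univ _) hh
      rw [Submodule.subtype_apply, ← hγp h]
      rw [Finset.sum_congr rfl fun w _ => by rw [h2 w]]
      have h6 : ∀ i, ψ h (lam i) • ((((b : Fin m → B) i : B) : Ω) * q i) =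
          ∑ w, (bC.repr (γq i ((b : Fin m → B) i)) w * ψ h (lam i)) • x w := by
        intro i
        rw [← hγq i, Finset.smul_sum]
        refine Finset.sum_congr rfl fun w _ => ?_
        rw [smul_smul, mul_comm]
      rw [Finset.sum_congr rfl fun i _ => h6 i, Finset.sum_comm]
      refine Finset.sum_congr rfl fun w _ => ?_
      rw [Finset.sum_smul]
    have h7 := Submodule.finrank_mono h1
    have h8 : finrank k ((LinearMap.ker ΦE).map E.subtype) = finrank k (LinearMap.ker ΦE) :=
      (Submodule.equivMapOfInjective E.subtype E.injective_subtype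
        (LinearMap.ker ΦE)).finrank_eq.symm
    omega
  have h9 := LinearMap.finrank_range_add_finrank_ker (V := E)
    (V₂ := Fin (finrank k C) → Ω) ΦE
  omega

/-- the solution space is trivial for nonconstant polynomials -/
theorem deg_poly_bot {t : Ω} (ht : Transcendental k t) {D m : ℕ} (P : Fin m → k[X])
    (hP1 : ∀ i, 1 ≤ (P i).natDegree) (c : Fin m → Fin m → k) :
    Deg (PV k t D) (fun i => aeval t (P i)) (fun _ => (1 : Ω)) c = ⊥ := by
  classical
  rw [Submodule.eq_bot_iff]
  intro b hb
  rw [mem_Deg] at hb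
  choose Q hQ hQq using fun i => mem_PV.mp (b i).2
  have hpoly : ∀ h, Q h * P h = ∑ i, c h i • Q i := by
    intro h
    apply aeval_inj ht
    rw [map_mul, map_sum, hQq, hb h]
    refine Finset.sum_congr rfl fun i _ => ?_
    rw [map_smul, hQq, mul_one]
  by_contra hcon
  obtain ⟨i₁, hi₁⟩ := Function.ne_iff.mp hcon
  have hne : (Finset.univ.filter fun i => Q i ≠ 0).Nonempty := by
    refine ⟨i₁, Finset.mem_filter.mpr ⟨Finset.mem_univ _, fun h0 => hi₁ ?_⟩⟩
    apply Subtype.ext
    rw [← hQq, h0, map_zero]
    rfl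
  obtain ⟨h, hh, hmax⟩ := Finset.exists_max_image _ (fun i => (Q i).natDegree) hne
  have hQh : Q h ≠ 0 := (Finset.mem_filter.mp hh).2
  have hP0 : P h ≠ 0 := by
    intro h0
    have := hP1 h
    rw [h0, natDegree_zero] at this
    omega
  have h1 : (Q h * P h).natDegree ≤ (Q h).natDegree := by
    rw [hpoly h]
    apply natDegree_sum_le_of_forall_le
    intro i _
    refine (natDegree_smul_le _ _).trans ?_
    by_cases hi : Q i = 0
    · rw [hi, natDegree_zero]; exact Nat.zero_le _
    · exact hmax i (Finset.mem_filter.mpr ⟨Finset.mem_univ _, hi⟩)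
  rw [natDegree_mul hQh hP0] at h1
  have := hP1 h
  omega

/-- **Polynomial multipliers**, with a polynomial multiple of `1`. -/
theorem rank_poly1 {V : Submodule k Ω} (hV : Hyper V) (h1V : (1 : Ω) ∈ V) {t : Ω}
    (ht : Transcendental k t) {D : ℕ}
    {m : ℕ} (l u : Fin m → Ω) (P T : Fin m → k[X]) (hP1 : ∀ i, 1 ≤ (P i).natDegree)
    (hP2 : ∀ i, (P i).natDegree ≤ D) (hT : ∀ i, (T i).natDegree ≤ D)
    (hl : LinearIndependent k (fun i : Fin (m + 1) => (finSuccEquiv m i).elim (1 : Ω) l))
    (hlV : ∀ i, l i ∈ V)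
    (hw : ∀ i, aeval t (P i) * l i + aeval t (T i) + u i ∈ V)
    (W : Submodule k Ω) [FiniteDimensional k W]
    (hW : ∀ b ∈ PV k t D, ∀ i, b * u i ∈ W) :
    m * D ≤ finrank k W + 2 * D * (2 * D - 1) := by
  classical
  have h := core1 hV h1V l (fun i => aeval t (P i) * l i + aeval t (T i) + u i)
    (fun i => aeval t (P i)) (fun _ => 1) u (fun i => aeval t (T i))
    hl hlV hw (fun i => (one_mul _).symm) (PV k t D) (PV k t (2 * D)) W ?_ ?_ ?_ hW 0 ?_
  · rw [finrank_PV ht, finrank_PV ht, add_zero] at h
    exact h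
  · intro b hb i
    exact PV_mul (a := D) (b := D + 1) (by omega) hb
      (aeval_mem_PV (by have := hP2 i; omega))
  · intro b hb i
    rw [mul_one]
    exact Submodule.map_mono (degreeLT_mono (by omega)) hb
  · intro b hb i
    exact PV_mul (a := D) (b := D + 1) (by omega) hb
      (aeval_mem_PV (by have := hT i; omega))
  · intro c
    rw [deg_poly_bot ht P hP1 c, finrank_bot]

/-- **Quotients as multipliers**, with a multiple of `1`. -/
theorem rank_ratio1 {V : Submodule k Ω} (hV : Hyper V) (h1V : (1 : Ω) ∈ V) {m : ℕ}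
    (l lam p q u v : Fin m → Ω)
    (hl : LinearIndependent k (fun i : Fin (m + 1) => (finSuccEquiv m i).elim (1 : Ω) l))
    (hlV : ∀ i, l i ∈ V) (hlam : ∀ i, lam i ∈ V)
    (hrel : ∀ i, p i * l i + v i + u i = q i * lam i) (hq0 : ∀ i, q i ≠ 0)
    (hpq : ∀ i, ∀ a : k, algebraMap k Ω a * q i ≠ p i)
    (B C W : Submodule k Ω) [FiniteDimensional k B] [FiniteDimensional k C]
    [FiniteDimensional k W] (hp : ∀ b ∈ B, ∀ i, b * p i ∈ C) (hq : ∀ b ∈ B, ∀ i, b * q i ∈ C)
    (hv : ∀ b ∈ B, ∀ i, b * v i ∈ C)
    (hW : ∀ b ∈ B, ∀ i, b * u i ∈ W) :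
    m * finrank k B ≤ 2 * (finrank k W + finrank k C * (finrank k C - 1)) := by
  have h := core1 hV h1V l lam p q u v hl hlV hlam hrel B C W hp hq hv hW
    (m * finrank k B / 2) (fun c => by
      have := finrank_Deg_le B p q hq0 hpq c
      omega)
  omega

end Pool.Agent.K3h86.PT
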