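import Pool.Agent.K3h86.PT.Core

/-!
# Powers of integers times powers of `e` and of other numbers

The hyperplane case of the linear subgroup theorem (starting files `Pool.Agent.W254.HP`) and Baker's
theorem (starting files `Pool.Agent.H297R2`) applied to the rank bounds of `Pool.Agent.K3h86.PT.Core`.
-/

set_option autoImplicit false

namespace Pool.Agent.K3h86.PT

open Module Finset Polynomial
open Pool.Agent.HP778
open Pool.Agent.H301R2.SSE (QB mem_QB Lt Lt_mul Lt_alg Lt_log Lt_one)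
open Pool.Agent.W254.HP (boxV boxV_double finrank_boxV_le box_mul one_mem_boxV finrank_boxV_pos
  mon_mem)

/-- the map `x ↦ ∑ j, z j * x j` -/
noncomputable def zMap {s : ℕ} (z : Fin s → ℂ) (C : Submodule QB ℂ) : (Fin s → C) →ₗ[QB] ℂ :=
  ∑ j, (LinearMap.mulLeft QB (z j)) ∘ₗ C.subtype ∘ₗ
    (LinearMap.proj j : (Fin s → C) →ₗ[QB] C)

theorem zMap_apply {s : ℕ} (z : Fin s → ℂ) (C : Submodule QB ℂ) (x : Fin s → C) :
    zMap z C x = ∑ j, z j * (x j : ℂ) := by
  unfold zMap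
  rw [LinearMap.sum_apply]
  rfl

/-- sums of multiples of several numbers -/
noncomputable def zS {s : ℕ} (z : Fin s → ℂ) (C : Submodule QB ℂ) : Submodule QB ℂ :=
  LinearMap.range (zMap z C)

instance {s : ℕ} (z : Fin s → ℂ) (C : Submodule QB ℂ) [FiniteDimensional QB C] :
    FiniteDimensional QB (zS z C) := by
  unfold zS; infer_instance

theorem finrank_zS_le {s : ℕ} (z : Fin s → ℂ) (C : Submodule QB ℂ) [FiniteDimensional QB C] :
    finrank QB (zS z C) ≤ s * finrank QB C := by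
  unfold zS
  refine (LinearMap.finrank_range_le _).trans (le_of_eq ?_)
  rw [Module.finrank_pi_fintype, Finset.sum_const, Finset.card_univ, Fintype.card_fin, smul_eq_mul]

theorem mem_zS {s : ℕ} {z x : Fin s → ℂ} {C : Submodule QB ℂ} (hx : ∀ j, x j ∈ C) :
    ∑ j, x j * z j ∈ zS z C := by
  refine ⟨fun j => ⟨x j, hx j⟩, ?_⟩
  rw [zMap_apply]
  exact Finset.sum_congr rfl fun j _ => mul_comm _ _

/-- `x = P(t) / Q(t)`, `v = T(t) / Q(t)`, `y j = S_j(t) / Q(t)` with polynomials of degree at most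
`D` in each variable -/
def IsQuotM {r s : ℕ} (D : ℕ) (t : Fin r → ℂ) (x v : ℂ) (y : Fin s → ℂ) : Prop :=
  ∃ (P Q T : MvPolynomial (Fin r) QB) (S : Fin s → MvPolynomial (Fin r) QB),
    (∀ i, P.degreeOf i ≤ D) ∧ (∀ i, Q.degreeOf i ≤ D) ∧ (∀ i, T.degreeOf i ≤ D) ∧
    (∀ j i, (S j).degreeOf i ≤ D) ∧ MvPolynomial.aeval t Q ≠ 0 ∧
    x = MvPolynomial.aeval t P / MvPolynomial.aeval t Q ∧
    v = MvPolynomial.aeval t T / MvPolynomial.aeval t Q ∧
    ∀ j, y j = MvPolynomial.aeval t (S j) / MvPolynomial.aeval t Q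

theorem logs_multi {r s : ℕ} (t : Fin r → ℂ) (z : Fin s → ℂ) {D : ℕ} (hD : 1 ≤ D) {m : ℕ}
    (l : Fin m → ℂ) (halg : ∀ i, IsAlgebraic ℚ (Complex.exp (l i)))
    (hli : LinearIndependent ℚ l)
    (h : ∀ i, ∃ x v y, IsQuotM D t x v y ∧ Transcendental ℚ x ∧
      x * l i + v + ∑ j, y j * z j ∈ Lt) :
    m ≤ 2 ^ (r + 1) * ((2 * D) ^ r + s - 1) := by
  choose x v y hxy hx hw using h
  choose P Q T S hP hQ hT hS hQ0 hxe hve hye using hxy
  have hbase : m * finrank QB (boxV t D) ≤ 2 * (finrank QB (zS z (boxV t (2 * D))) +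
        finrank QB (boxV t (2 * D)) * (finrank QB (boxV t (2 * D)) - 1)) := by
    refine rank_ratio1 hyper_Lt Lt_one l (fun i => x i * l i + v i + ∑ j, y i j * z j)
      (fun i => MvPolynomial.aeval t (P i)) (fun i => MvPolynomial.aeval t (Q i))
      (fun i => ∑ j, MvPolynomial.aeval t (S i j) * z j) (fun i => MvPolynomial.aeval t (T i))
      (indep_cons halg hli) (fun i => Lt_log (halg i)) hw ?_ hQ0 ?_
      (boxV t D) (boxV t (2 * D)) (zS z (boxV t (2 * D))) ?_ ?_ ?_ ?_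
    · intro i
      have hq := hQ0 i
      have h1 : (MvPolynomial.aeval t (Q i)) * ∑ j, y i j * z j =
          ∑ j, MvPolynomial.aeval t (S i j) * z j := by
        rw [Finset.mul_sum]
        refine Finset.sum_congr rfl fun j _ => ?_
        rw [hye i j]
        field_simp
      rw [mul_add, mul_add, h1, hxe i, hve i]
      field_simp
    · intro i a ha
      apply hx i
      have : x i = (a : ℂ) := by
        rw [hxe i, ← ha, mul_div_cancel_right₀ _ (hQ0 i)]
        rfl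
      rw [this]
      exact mem_QB.mp a.2
    · intro b hb i
      exact box_mul t D (D + 1) (2 * D) (by omega) b hb _ (aeval_mem_box t D _ (hP i))
    · intro b hb i
      exact box_mul t D (D + 1) (2 * D) (by omega) b hb _ (aeval_mem_box t D _ (hQ i))
    · intro b hb i
      exact box_mul t D (D + 1) (2 * D) (by omega) b hb _ (aeval_mem_box t D _ (hT i))
    · intro b hb i
      have h1 : b * ∑ j, MvPolynomial.aeval t (S i j) * z j =
          ∑ j, (b * MvPolynomial.aeval t (S i j)) * z j := by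
        rw [Finset.mul_sum]
        exact Finset.sum_congr rfl fun j _ => (mul_assoc _ _ _).symm
      rw [h1]
      exact mem_zS fun j =>
        box_mul t D (D + 1) (2 * D) (by omega) b hb _ (aeval_mem_box t D _ (hS i j))
  have hb := finrank_boxV_pos t hD
  have h4 := finrank_boxV_le t (2 * D)
  have h5 := boxV_double t D
  have hc := finrank_boxV_pos t (N := 2 * D) (by omega)
  have h2 := finrank_zS_le z (boxV t (2 * D))
  set c := finrank QB (boxV t (2 * D)) with hcdef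
  set b := finrank QB (boxV t D) with hbdef
  have h6 : s * c + c * (c - 1) = c * (c + s - 1) := by
    obtain ⟨c', hc'⟩ : ∃ c', c = c' + 1 := ⟨c - 1, by omega⟩
    rw [hc', Nat.add_sub_cancel]
    have : c' + 1 + s - 1 = c' + s := by omega
    rw [this]; ring
  have h7 : m * b ≤ (2 ^ (r + 1) * ((2 * D) ^ r + s - 1)) * b := by
    calc m * b ≤ 2 * (finrank QB (zS z (boxV t (2 * D))) + c * (c - 1)) := hbase
      _ ≤ 2 * (s * c + c * (c - 1)) := by omega
      _ = 2 * (c * (c + s - 1)) := by rw [h6]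
      _ ≤ 2 * ((2 ^ r * b) * ((2 * D) ^ r + s - 1)) :=
        Nat.mul_le_mul_left _ (Nat.mul_le_mul h5 (by omega))
      _ = (2 ^ (r + 1) * ((2 * D) ^ r + s - 1)) * b := by ring
  exact Nat.le_of_mul_le_mul_right h7 hb

/-- polynomial multipliers, polynomial multiples of `1` and of other numbers -/
theorem logs_polyz1 {t : ℂ} (ht : Transcendental ℚ t) {s : ℕ} (z : Fin s → ℂ) {D : ℕ} (hD : 1 ≤ D)
    {m : ℕ} (l : Fin m → ℂ) (halg : ∀ i, IsAlgebraic ℚ (Complex.exp (l i)))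
    (hli : LinearIndependent ℚ l)
    (h : ∀ i, ∃ (P T : QB[X]) (S : Fin s → QB[X]), 1 ≤ P.natDegree ∧ P.natDegree ≤ D ∧
      T.natDegree ≤ D ∧ (∀ j, (S j).natDegree ≤ D) ∧
      aeval t P * l i + aeval t T + ∑ j, aeval t (S j) * z j ∈ Lt) : m ≤ 4 * D + 2 * s - 2 := by
  choose P T S hP1 hP2 hT hS hw using h
  have h := rank_poly1 hyper_Lt Lt_one (tr_QB ht) l (fun i => ∑ j, aeval t (S i j) * z j) P T
    hP1 hP2 hT (indep_cons halg hli) (fun i => Lt_log (halg i)) hw (zS z (PV QB t (2 * D)))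
    (fun b hb i => by
      have h1 : b * ∑ j, aeval t (S i j) * z j = ∑ j, (b * aeval t (S i j)) * z j := by
        rw [Finset.mul_sum]
        exact Finset.sum_congr rfl fun j _ => (mul_assoc _ _ _).symm
      rw [h1]
      exact mem_zS fun j => PV_mul (a := D) (b := D + 1) (by omega) hb
        (aeval_mem_PV (by have := hS i j; omega)))
  have h2 := finrank_zS_le z (PV QB t (2 * D))
  rw [finrank_PV (tr_QB ht)] at h2
  have h3 : m * D ≤ (4 * D + 2 * s - 2) * D := by
    calc m * D ≤ s * (2 * D) + 2 * D * (2 * D - 1) := by omega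
      _ = (4 * D + 2 * s - 2) * D := by
        obtain ⟨D', rfl⟩ : ∃ D', D = D' + 1 := ⟨D - 1, by omega⟩
        have e1 : 2 * (D' + 1) - 1 = 2 * D' + 1 := by omega
        have e2 : 4 * (D' + 1) + 2 * s - 2 = 4 * D' + 2 * s + 2 := by omega
        rw [e1, e2]; ring
  exact Nat.le_of_mul_le_mul_right h3 (by omega)

/-- the numbers `y` with `t * y` a linear form in logarithms -/
noncomputable def tLt (t : ℂ) : Submodule ℚ ℂ :=
  (Lt.restrictScalars ℚ).comap (LinearMap.mulLeft ℚ t)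

theorem mem_tLt {t y : ℂ} : y ∈ tLt t ↔ t * y ∈ Lt := Iff.rfl

open Classical in
/-- counting the `n` with `t log n + t` a linear form in logarithms -/
theorem count_add {t : ℂ} (ht : Transcendental ℚ t) (N : ℕ) :
    ((Finset.Icc 1 N).filter (fun n : ℕ => t * ((Real.log n : ℝ) : ℂ) + t ∈ Lt)).card ≤
      Nat.log 2 N + 1 := by
  set S := (Finset.Icc 1 N).filter (fun n : ℕ => t * ((Real.log n : ℝ) : ℂ) + t ∈ Lt) with hS
  rcases S.eq_empty_or_nonempty with h0 | ⟨n₀, hn₀⟩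
  · rw [h0, Finset.card_empty]
    exact Nat.zero_le _
  have hmem : ∀ n ∈ S, (1 ≤ n ∧ n ≤ N) ∧ t * ((Real.log n : ℝ) : ℂ) + t ∈ Lt := fun n hn =>
    ⟨Finset.mem_Icc.mp (Finset.mem_filter.mp hn).1, (Finset.mem_filter.mp hn).2⟩
  have h4 := count (N := N) (r := 1) S (fun n hn => (hmem n hn).1) n₀ (hmem n₀ hn₀).1.2 ?_
  · rwa [pow_one] at h4
  intro m n hn hli
  have hdiff : ∀ i, t * (((Real.log (n i) : ℝ) : ℂ) - ((Real.log n₀ : ℝ) : ℂ)) ∈ Lt := by
    intro i
    have h1 := Lt.sub_mem (hmem _ (hn i)).2 (hmem _ hn₀).2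
    have h2 : t * (((Real.log (n i) : ℝ) : ℂ) - ((Real.log n₀ : ℝ) : ℂ)) =
      (t * ((Real.log (n i) : ℝ) : ℂ) + t) - (t * ((Real.log n₀ : ℝ) : ℂ) + t) := by ring
    rw [h2]
    exact h1
  have halg : ∀ i, IsAlgebraic ℚ (Complex.exp
      (((Real.log (n i) : ℝ) : ℂ) - ((Real.log n₀ : ℝ) : ℂ))) :=
    fun i => exp_sub_alg (hmem _ (hn i)).1.1 (hmem _ hn₀).1.1
  by_cases hspan : ((Real.log n₀ : ℝ) : ℂ) ∈ Submodule.span ℚ
      (Set.range (fun i => ((Real.log (n i) : ℝ) : ℂ) - ((Real.log n₀ : ℝ) : ℂ)))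
  · have h1 : Submodule.span ℚ
        (Set.range (fun i => ((Real.log (n i) : ℝ) : ℂ) - ((Real.log n₀ : ℝ) : ℂ))) ≤ tLt t := by
      rw [Submodule.span_le]
      rintro _ ⟨i, rfl⟩
      exact mem_tLt.mpr (hdiff i)
    have h2 : t * ((Real.log n₀ : ℝ) : ℂ) ∈ Lt := mem_tLt.mp (h1 hspan)
    have htL : t ∈ Lt := by
      have h3 := Lt.sub_mem (hmem _ hn₀).2 h2
      have h5 : t * ((Real.log n₀ : ℝ) : ℂ) + t - t * ((Real.log n₀ : ℝ) : ℂ) = t := by ring
      rwa [h5] at h3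
    refine logs_poly' ht htL le_rfl _ halg hli fun i => ⟨X, by simp, by simp, ?_⟩
    rw [aeval_X]
    exact hdiff i
  · have hli' : LinearIndependent ℚ (Fin.cons ((Real.log n₀ : ℝ) : ℂ)
        (fun i => ((Real.log (n i) : ℝ) : ℂ) - ((Real.log n₀ : ℝ) : ℂ)) : Fin (m + 1) → ℂ) :=
      linearIndependent_finCons.mpr ⟨hli, hspan⟩
    have halg' : ∀ i, IsAlgebraic ℚ (Complex.exp ((Fin.cons ((Real.log n₀ : ℝ) : ℂ)
        (fun i => ((Real.log (n i) : ℝ) : ℂ) - ((Real.log n₀ : ℝ) : ℂ)) :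
          Fin (m + 1) → ℂ) i)) := by
      intro i
      refine Fin.cases ?_ (fun j => ?_) i
      · rw [Fin.cons_zero]; exact exp_log_alg (hmem _ hn₀).1.1
      · rw [Fin.cons_succ]; exact halg j
    have h := rank_poly1 hyper_Lt Lt_one (tr_QB ht) (D := 1)
      (Fin.cons ((Real.log n₀ : ℝ) : ℂ)
        (fun i => ((Real.log (n i) : ℝ) : ℂ) - ((Real.log n₀ : ℝ) : ℂ)) : Fin (m + 1) → ℂ)
      (fun _ => 0) (fun _ => X) (Fin.cons X (fun _ => 0) : Fin (m + 1) → QB[X])
      (fun _ => by simp) (fun _ => by simp) ?_ (indep_cons halg' hli')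
      (fun i => Lt_log (halg' i)) ?_ ⊥ (fun b _ i => by simp)
    · rw [finrank_bot] at h
      omega
    · intro i
      refine Fin.cases ?_ (fun j => ?_) i
      · rw [Fin.cons_zero]; simp
      · rw [Fin.cons_succ]; simp
    · intro i
      refine Fin.cases ?_ (fun j => ?_) i
      · rw [Fin.cons_zero, Fin.cons_zero, aeval_X, add_zero]
        exact (hmem _ hn₀).2
      · rw [Fin.cons_succ, Fin.cons_succ, aeval_X, map_zero, add_zero, add_zero]
        exact hdiff j

end Pool.Agent.K3h86.PT
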